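import Mathlib.Order.Basic
import Mathlib.Data.Set.Basic
import Mathlib.Data.Fin.VecNotation
import Mathlib.Logic.Function.Basic
import Mathlib.Tactic.FinCases
import Mathlib.Data.Fintype.Basic

/-!
# The variety generated by `K` is not a discriminator variety

Here `K = SP {W(P) | P a poset}` is the class of representable weakening implication
semigroups.  No class of algebras with a common discriminator term generates a variety
that contains `K`.
-/

namespace Pool.Agent.Results.MP_d80673_al.NotDiscriminator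

universe u

/-- An algebra in the signature `(→, ;)`: a type with two binary operations. -/
structure Alg : Type (u + 1) where
  /-- the underlying set -/
  carrier : Type u
  /-- the operation `→` -/
  imp : carrier → carrier → carrier
  /-- the operation `;` -/
  seq : carrier → carrier → carrier

/-- `f` is a homomorphism from `A` to `B`. -/
def IsHom (A B : Alg.{u}) (f : A.carrier → B.carrier) : Prop :=
  (∀ x y, f (A.imp x y) = B.imp (f x) (f y)) ∧ (∀ x y, f (A.seq x y) = B.seq (f x) (f y))

/-- The direct product of a family of algebras, with coordinatewise operations. -/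
def prodAlg {ι : Type u} (A : ι → Alg.{u}) : Alg.{u} where
  carrier := ∀ i, (A i).carrier
  imp := fun f g i => (A i).imp (f i) (g i)
  seq := fun f g i => (A i).seq (f i) (g i)

/-- Relational composition `R;S`. -/
def relSeq {X : Type u} (R S : Set (X × X)) : Set (X × X) :=
  {p | ∃ y, (p.1, y) ∈ R ∧ (y, p.2) ∈ S}

/-- The order relation of a poset, as a set of pairs. -/
def leRel (X : Type u) [PartialOrder X] : Set (X × X) := {p | p.1 ≤ p.2}

/-- `R` is a weakening relation on the poset `X`: `≤ ; R ; ≤ ⊆ R`. -/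
def IsWeakening {X : Type u} [PartialOrder X] (R : Set (X × X)) : Prop :=
  relSeq (relSeq (leRel X) R) (leRel X) ⊆ R

/-- The implication of relations on a poset:
`R → S = {(x,y) | ∀ x' ≤ x, ∀ y' ≥ y, (x',y') ∈ R → (x',y') ∈ S}`. -/
def relImp {X : Type u} [PartialOrder X] (R S : Set (X × X)) : Set (X × X) :=
  {p | ∀ x' y', x' ≤ p.1 → p.2 ≤ y' → (x', y') ∈ R → (x', y') ∈ S}

theorem isWeakening_iff {X : Type u} [PartialOrder X] (R : Set (X × X)) :
    IsWeakening R ↔ ∀ x' x y y', x' ≤ x → (x, y) ∈ R → y ≤ y' → (x', y') ∈ R := by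
  constructor
  · intro h x' x y y' hx hR hy
    exact h ⟨y, ⟨x, hx, hR⟩, hy⟩
  · rintro h ⟨x', y'⟩ ⟨y, ⟨x, hx, hR⟩, hy⟩
    exact h x' x y y' hx hR hy

theorem isWeakening_relSeq {X : Type u} [PartialOrder X] {R S : Set (X × X)}
    (hR : IsWeakening R) (hS : IsWeakening S) : IsWeakening (relSeq R S) := by
  rw [isWeakening_iff] at *
  rintro x' x y y' hx ⟨z, hz1, hz2⟩ hy
  exact ⟨z, hR _ _ _ _ hx hz1 le_rfl, hS _ _ _ _ le_rfl hz2 hy⟩

theorem isWeakening_relImp {X : Type u} [PartialOrder X] (R S : Set (X × X)) :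
    IsWeakening (relImp R S) := by
  rw [isWeakening_iff]
  intro x' x y y' hx h hy a b ha hb hab
  exact h a b (ha.trans hx) (hy.trans hb) hab

/-- The algebra `W(P)` of all weakening relations on the poset `P = X`. -/
def weakAlg (X : Type u) [PartialOrder X] : Alg where
  carrier := {R : Set (X × X) // IsWeakening R}
  imp := fun R S => ⟨relImp R.1 S.1, isWeakening_relImp R.1 S.1⟩
  seq := fun R S => ⟨relSeq R.1 S.1, isWeakening_relSeq R.2 S.2⟩

/-- The class `K` of representable weakening implication semigroups: `A` is isomorphic to a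
subalgebra of (that is, it embeds in) a direct product of algebras `W(P)`, `P` a poset. -/
def InK (A : Alg.{u}) : Prop :=
  ∃ (ι : Type u) (X : ι → Type u) (_ : ∀ i, PartialOrder (X i))
    (f : A.carrier → (prodAlg fun i => weakAlg (X i)).carrier),
    IsHom A (prodAlg fun i => weakAlg (X i)) f ∧ Function.Injective f

/-- Terms in the signature `(→, ;)` with variables `x_0, x_1, x_2`. -/
inductive Term
  | var (i : Fin 3)
  | imp (s t : Term)
  | seq (s t : Term)

/-- The value of a term in an algebra under an assignment of the variables. -/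
def Term.eval (A : Alg.{u}) (env : Fin 3 → A.carrier) : Term → A.carrier
  | .var i => env i
  | .imp s t => A.imp (s.eval A env) (t.eval A env)
  | .seq s t => A.seq (s.eval A env) (t.eval A env)

/-- The term `d` is a discriminator term on the algebra `A`: its value `d(a, b, c)` is `c` if
`a = b` and is `a` if `a ≠ b`. -/
def IsDiscriminator (d : Term) (A : Alg.{u}) : Prop :=
  ∀ a b c : A.carrier, (a = b → d.eval A ![a, b, c] = c) ∧ (a ≠ b → d.eval A ![a, b, c] = a)

/-- `B` belongs to the variety `HSP(C)` generated by the class `C`: it is a homomorphic image of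
an algebra `S` that embeds in a direct product of members of `C`. -/
def InHSP (C : Alg.{u} → Prop) (B : Alg.{u}) : Prop :=
  ∃ (ι : Type u) (A : ι → Alg.{u}) (S : Alg.{u}) (f : S.carrier → (prodAlg A).carrier)
    (g : S.carrier → B.carrier), (∀ i, C (A i)) ∧ IsHom S (prodAlg A) f ∧
      Function.Injective f ∧ IsHom S B g ∧ Function.Surjective g

theorem eval_hom {A B : Alg.{u}} {f : A.carrier → B.carrier} (hf : IsHom A B f)
    (env : Fin 3 → A.carrier) (t : Term) :
    f (t.eval A env) = t.eval B (fun i => f (env i)) := by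
  induction t with
  | var i => rfl
  | imp s t hs ht => simp only [Term.eval, hf.1, hs, ht]
  | seq s t hs ht => simp only [Term.eval, hf.2, hs, ht]

theorem eval_prod {ι : Type u} (A : ι → Alg.{u}) (env : Fin 3 → (prodAlg A).carrier) (t : Term)
    (i : ι) : t.eval (prodAlg A) env i = t.eval (A i) (fun j => env j i) := by
  induction t with
  | var i => rfl
  | imp s t hs ht => simp only [Term.eval, ← hs, ← ht]; rfl
  | seq s t hs ht => simp only [Term.eval, ← hs, ← ht]; rfl

theorem comp_vec {α β : Type*} (f : α → β) (a b c : α) :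
    (fun i => f (![a, b, c] i)) = ![f a, f b, f c] := by
  funext i
  fin_cases i <;> rfl

/-- The two laws `d(x,x,z) = z` and `d(x,y,y) = x`. -/
def Maltsev (d : Term) (A : Alg.{u}) : Prop :=
  (∀ x z, d.eval A ![x, x, z] = z) ∧ (∀ x y, d.eval A ![x, y, y] = x)

theorem maltsev_of_disc {d : Term} {A : Alg.{u}} (h : IsDiscriminator d A) : Maltsev d A := by
  refine ⟨fun x z => (h x x z).1 rfl, fun x y => ?_⟩
  by_cases hxy : x = y
  · subst hxy; exact (h x x x).1 rfl
  · exact (h x y y).2 hxy

theorem maltsev_of_inHSP {C : Alg.{u} → Prop} {d : Term} (hC : ∀ A, C A → Maltsev d A)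
    {B : Alg.{u}} (hB : InHSP C B) : Maltsev d B := by
  obtain ⟨ι, A, S, f, g, hA, hf, hfi, hg, hgs⟩ := hB
  have hS : Maltsev d S := by
    constructor
    · intro x z
      apply hfi
      rw [eval_hom hf, comp_vec]
      funext i
      rw [eval_prod]
      have := (hC (A i) (hA i)).1 (f x i) (f z i)
      convert this using 2
      funext j
      fin_cases j <;> rfl
    · intro x y
      apply hfi
      rw [eval_hom hf, comp_vec]
      funext i
      rw [eval_prod]
      have := (hC (A i) (hA i)).2 (f x i) (f y i)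
      convert this using 2
      funext j
      fin_cases j <;> rfl
  constructor
  · intro x z
    obtain ⟨x, rfl⟩ := hgs x
    obtain ⟨z, rfl⟩ := hgs z
    rw [← comp_vec, ← eval_hom hg, hS.1]
  · intro x y
    obtain ⟨x, rfl⟩ := hgs x
    obtain ⟨y, rfl⟩ := hgs y
    rw [← comp_vec, ← eval_hom hg, hS.2]

/-! ## A two-element member of `K` -/

/-- A two-element algebra: `;` is constant with value `true`, and `→` is Boolean implication. -/
def twoAlg : Alg.{u} where
  carrier := ULift.{u} Bool
  imp := fun a b => ⟨!a.down || b.down⟩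
  seq := fun _ _ => ⟨true⟩

/-- A three-element set, ordered discretely. -/
inductive Pt : Type u
  | a | b | c

instance : PartialOrder Pt.{u} where
  le := fun x y => x = y
  le_refl := fun _ => rfl
  le_trans := fun _ _ _ h1 h2 => h1.trans h2
  le_antisymm := fun _ _ h _ => h

theorem isWeakening_disc (R : Set (Pt.{u} × Pt.{u})) : IsWeakening R := by
  rw [isWeakening_iff]
  intro x' x y y' hx h hy
  have hx' : x' = x := hx
  have hy' : y = y' := hy
  subst hx'; subst hy'; exact h

/-- The embedding of the two-element algebra: `false` goes to `≠`, `true` to the full square. -/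
def emb2 (a : ULift.{u} Bool) : (weakAlg Pt.{u}).carrier :=
  ⟨{p | a.down = true ∨ p.1 ≠ p.2}, isWeakening_disc _⟩

theorem twoAlg_inK : InK twoAlg.{u} := by
  have h3 : ∀ x z : Pt.{u}, ∃ y, x ≠ y ∧ y ≠ z := by
    intro x z
    have hab : (Pt.a : Pt.{u}) ≠ Pt.b := fun h => by cases h
    have hac : (Pt.a : Pt.{u}) ≠ Pt.c := fun h => by cases h
    have hbc : (Pt.b : Pt.{u}) ≠ Pt.c := fun h => by cases h
    cases x <;> cases z <;>
      first
        | exact ⟨Pt.a, hab.symm, hab⟩
        | exact ⟨Pt.a, hab.symm, hac⟩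
        | exact ⟨Pt.a, hac.symm, hab⟩
        | exact ⟨Pt.a, hac.symm, hac⟩
        | exact ⟨Pt.b, hab, hab.symm⟩
        | exact ⟨Pt.b, hab, hbc⟩
        | exact ⟨Pt.b, hbc.symm, hbc⟩
        | exact ⟨Pt.b, hbc.symm, hab.symm⟩
        | exact ⟨Pt.c, hac, hac.symm⟩
        | exact ⟨Pt.c, hac, hbc.symm⟩
        | exact ⟨Pt.c, hbc, hbc.symm⟩
        | exact ⟨Pt.c, hbc, hac.symm⟩
  refine ⟨PUnit, fun _ => Pt.{u}, fun _ => inferInstance, fun a _ => emb2 a, ⟨?_, ?_⟩, ?_⟩
  · rintro ⟨a⟩ ⟨b⟩
    funext _
    apply Subtype.ext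
    apply Set.ext
    rintro ⟨x, y⟩
    change ((!a || b) = true ∨ x ≠ y) ↔ ∀ x' y', x' ≤ x → y ≤ y' → (a = true ∨ x' ≠ y') →
      (b = true ∨ x' ≠ y')
    constructor
    · rintro h x' y' hx hy h'
      have hx' : x' = x := hx
      have hy' : y = y' := hy
      subst hx'; subst hy'
      cases a <;> cases b <;> simp_all
    · intro h
      have := h x y le_rfl le_rfl
      cases a <;> cases b <;> simp_all
  · rintro ⟨a⟩ ⟨b⟩
    funext _
    apply Subtype.ext
    apply Set.ext
    rintro ⟨x, z⟩
    refine ⟨fun _ => ?_, fun _ => Or.inl rfl⟩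
    obtain ⟨y, hy1, hy2⟩ := h3 x z
    exact ⟨y, Or.inr hy1, Or.inr hy2⟩
  · rintro ⟨a⟩ ⟨b⟩ h
    have h1 := congrArg Subtype.val (congrFun h PUnit.unit)
    have h2 : ((Pt.a, Pt.a) : Pt.{u} × Pt.{u}) ∈ (emb2 ⟨a⟩).1 ↔
        ((Pt.a, Pt.a) : Pt.{u} × Pt.{u}) ∈ (emb2 ⟨b⟩).1 := by
      have h1' : (emb2 ⟨a⟩).1 = (emb2 ⟨b⟩).1 := h1
      rw [h1']
    have h3 : (a = true ∨ (Pt.a : Pt.{u}) ≠ Pt.a) ↔ (b = true ∨ (Pt.a : Pt.{u}) ≠ Pt.a) := h2
    cases a <;> cases b <;> first | rfl | simp at h3

theorem above_var (t : Term) : ∃ i : Fin 3, ∀ env : Fin 3 → twoAlg.{u}.carrier,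
    (env i).down = true → (t.eval twoAlg.{u} env).down = true := by
  induction t with
  | var i => exact ⟨i, fun env h => h⟩
  | imp s t _ ht =>
    obtain ⟨i, hi⟩ := ht
    refine ⟨i, fun env h => ?_⟩
    have h2 := hi env h
    change (!(s.eval twoAlg.{u} env).down || (t.eval twoAlg.{u} env).down) = true
    rw [h2]; simp
  | seq s t _ _ => exact ⟨0, fun env _ => rfl⟩

theorem not_maltsev_twoAlg (d : Term) : ¬ Maltsev d twoAlg.{u} := by
  rintro ⟨h1, h2⟩
  obtain ⟨i, hi⟩ := above_var.{u} d
  have e1 := h1 ⟨true⟩ ⟨false⟩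
  have e2 := h2 ⟨false⟩ ⟨true⟩
  fin_cases i
  · have := hi ![⟨true⟩, ⟨true⟩, ⟨false⟩] rfl
    rw [e1] at this; cases this
  · have := hi ![⟨true⟩, ⟨true⟩, ⟨false⟩] rfl
    rw [e1] at this; cases this
  · have := hi ![⟨false⟩, ⟨true⟩, ⟨true⟩] rfl
    rw [e2] at this; cases this

/-- **No discriminator variety contains `K`**: if all members of a class `C` have a common
discriminator term, then some member of `K` lies outside the variety generated by `C`. -/
theorem result (C : Alg.{u} → Prop) (hC : ∃ d : Term, ∀ A, C A → IsDiscriminator d A) :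
    ∃ A : Alg.{u}, InK A ∧ ¬ InHSP C A := by
  obtain ⟨d, hd⟩ := hC
  exact ⟨twoAlg, twoAlg_inK,
    fun h => not_maltsev_twoAlg d (maltsev_of_inHSP (fun A hA => maltsev_of_disc (hd A hA)) h)⟩

end Pool.Agent.Results.MP_d80673_al.NotDiscriminator
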