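import Mathlib.Order.Basic
import Mathlib.Data.Set.Basic
import Mathlib.Logic.Function.Basic
import Mathlib.Tactic.TypeStar

/-!
# Weakening implication semigroups do not form a variety

We prove that the class `K = SP {W(P) | P a poset}` of representable weakening
implication semigroups is not closed under homomorphic images.
-/

namespace Pool.Agent.Results.MP_d80673_al.NotVariety

universe u v w

/-- An algebra in the signature `(→, ;)`: a type with two binary operations. -/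
structure Alg : Type (u + 1) where
  /-- the underlying set -/
  carrier : Type u
  /-- the operation `→` -/
  imp : carrier → carrier → carrier
  /-- the operation `;` -/
  seq : carrier → carrier → carrier

/-- `f` is a homomorphism from `A` to `B`. -/
def IsHom (A : Alg.{u}) (B : Alg.{v}) (f : A.carrier → B.carrier) : Prop :=
  (∀ x y, f (A.imp x y) = B.imp (f x) (f y)) ∧ (∀ x y, f (A.seq x y) = B.seq (f x) (f y))

/-- The direct product of a family of algebras, with coordinatewise operations. -/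
def prodAlg {ι : Type u} (A : ι → Alg.{v}) : Alg where
  carrier := ∀ i, (A i).carrier
  imp := fun f g i => (A i).imp (f i) (g i)
  seq := fun f g i => (A i).seq (f i) (g i)

/-- Relational composition `R;S`. -/
def relSeq {X : Type u} (R S : Set (X × X)) : Set (X × X) :=
  {p | ∃ y, (p.1, y) ∈ R ∧ (y, p.2) ∈ S}

/-- The order relation of a poset, as a set of pairs. -/
def leRel (X : Type u) [PartialOrder X] : Set (X × X) := {p | p.1 ≤ p.2}

/-- `R` is a weakening relation on the poset `X`: `≤ ; R ; ≤ ⊆ R`. -/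
def IsWeakening {X : Type u} [PartialOrder X] (R : Set (X × X)) : Prop :=
  relSeq (relSeq (leRel X) R) (leRel X) ⊆ R

/-- The implication of relations on a poset:
`R → S = {(x,y) | ∀ x' ≤ x, ∀ y' ≥ y, (x',y') ∈ R → (x',y') ∈ S}`. -/
def relImp {X : Type u} [PartialOrder X] (R S : Set (X × X)) : Set (X × X) :=
  {p | ∀ x' y', x' ≤ p.1 → p.2 ≤ y' → (x', y') ∈ R → (x', y') ∈ S}

theorem isWeakening_iff {X : Type u} [PartialOrder X] (R : Set (X × X)) :
    IsWeakening R ↔ ∀ x' x y y', x' ≤ x → (x, y) ∈ R → y ≤ y' → (x', y') ∈ R := by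
  constructor
  · intro h x' x y y' hx hR hy
    exact h ⟨y, ⟨x, hx, hR⟩, hy⟩
  · rintro h ⟨x', y'⟩ ⟨y, ⟨x, hx, hR⟩, hy⟩
    exact h x' x y y' hx hR hy

theorem isWeakening_relSeq {X : Type u} [PartialOrder X] {R S : Set (X × X)}
    (hR : IsWeakening R) (hS : IsWeakening S) : IsWeakening (relSeq R S) := by
  rw [isWeakening_iff] at *
  rintro x' x y y' hx ⟨z, hz1, hz2⟩ hy
  exact ⟨z, hR _ _ _ _ hx hz1 le_rfl, hS _ _ _ _ le_rfl hz2 hy⟩

theorem isWeakening_relImp {X : Type u} [PartialOrder X] (R S : Set (X × X)) :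
    IsWeakening (relImp R S) := by
  rw [isWeakening_iff]
  intro x' x y y' hx h hy a b ha hb hab
  exact h a b (ha.trans hx) (hy.trans hb) hab

/-- The algebra `W(P)` of all weakening relations on the poset `P = X`. -/
def weakAlg (X : Type u) [PartialOrder X] : Alg where
  carrier := {R : Set (X × X) // IsWeakening R}
  imp := fun R S => ⟨relImp R.1 S.1, isWeakening_relImp R.1 S.1⟩
  seq := fun R S => ⟨relSeq R.1 S.1, isWeakening_relSeq R.2 S.2⟩

/-- The class `K` of representable weakening implication semigroups: `A` is isomorphic to a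
subalgebra of (that is, it embeds in) a direct product of algebras `W(P)`, `P` a poset. -/
def InK (A : Alg.{u}) : Prop :=
  ∃ (ι : Type v) (X : ι → Type w) (_ : ∀ i, PartialOrder (X i))
    (f : A.carrier → (prodAlg fun i => weakAlg (X i)).carrier),
    IsHom A (prodAlg fun i => weakAlg (X i)) f ∧ Function.Injective f

/-! ## A quasi-identity valid in `K` -/

/-- The quasi-identity: `s;1 = 1` and `(r₁;s) → ((r₂;s) → p) = 1` imply
`r₁ → (r₂ → (p;1)) = 1`, where `1 = s → s`. -/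
def QI (A : Alg.{u}) : Prop :=
  ∀ s r₁ r₂ p : A.carrier, A.seq s (A.imp s s) = A.imp s s →
    A.imp (A.seq r₁ s) (A.imp (A.seq r₂ s) p) = A.imp s s →
    A.imp r₁ (A.imp r₂ (A.seq p (A.imp s s))) = A.imp s s

theorem mem_weak_top {X : Type u} [PartialOrder X] (s : (weakAlg X).carrier) (q : X × X) :
    q ∈ ((weakAlg X).imp s s).1 := fun _ _ _ _ h => h

theorem qi_weakAlg (X : Type u) [PartialOrder X] : QI (weakAlg X) := by
  intro s r₁ r₂ p hs hp
  apply Subtype.ext
  ext ⟨u, x⟩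
  refine ⟨fun _ => mem_weak_top s _, fun _ => ?_⟩
  intro u' x' _ _ h1 u₂ x₂ hu₂ hx₂ h2
  have h1' : (u₂, x₂) ∈ r₁.1 := (isWeakening_iff r₁.1).1 r₁.2 _ _ _ _ hu₂ h1 hx₂
  have hx : (x₂, x₂) ∈ ((weakAlg X).seq s ((weakAlg X).imp s s)).1 := by
    rw [hs]; exact mem_weak_top s _
  obtain ⟨y, hy, -⟩ := hx
  have hpm : (u₂, y) ∈ ((weakAlg X).imp ((weakAlg X).seq r₁ s)
      ((weakAlg X).imp ((weakAlg X).seq r₂ s) p)).1 := by
    rw [hp]; exact mem_weak_top s _
  have hpp : (u₂, y) ∈ p.1 :=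
    hpm u₂ y le_rfl le_rfl ⟨x₂, h1', hy⟩ u₂ y le_rfl le_rfl ⟨x₂, h2, hy⟩
  exact ⟨y, hpp, mem_weak_top s _⟩

theorem qi_of_inK (A : Alg.{u}) (hA : InK.{u, v, w} A) : QI A := by
  obtain ⟨ι, X, inst, f, ⟨hi, hs⟩, hinj⟩ := hA
  intro s r₁ r₂ p h1 h2
  apply hinj
  funext i
  have e1 := congrFun (congrArg f h1) i
  have e2 := congrFun (congrArg f h2) i
  simp only [hi, hs] at e1 e2 ⊢
  exact qi_weakAlg (X i) (f s i) (f r₁ i) (f r₂ i) (f p i) e1 e2

/-! ## The poset `{a, b, c, t}` with `a < t` and `b < t` -/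

/-- The underlying set of the poset. -/
inductive Pt : Type u
  | a | b | c | t

/-- The underlying set `{a, b, c}` of the base of the homomorphic image. -/
inductive D : Type u
  | a | b | c

/-- The order on `Pt`: only `a ≤ t` and `b ≤ t` besides reflexivity. -/
def Pt.le : Pt.{u} → Pt.{u} → Prop
  | .a, .a => True
  | .b, .b => True
  | .c, .c => True
  | .t, .t => True
  | .a, .t => True
  | .b, .t => True
  | _, _ => False

instance : PartialOrder Pt.{u} where
  le := Pt.le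
  le_refl := by intro x; cases x <;> trivial
  le_trans := by
    intro x y z h1 h2
    cases x <;> cases y <;> cases z <;> first | trivial | exact h1.elim | exact h2.elim
  le_antisymm := by
    intro x y h1 h2
    cases x <;> cases y <;> first | rfl | exact h1.elim | exact h2.elim

/-- The inclusion of `{a, b, c}` in `{a, b, c, t}`. -/
def emb : D.{u} → Pt.{u}
  | .a => .a
  | .b => .b
  | .c => .c

theorem le_t_a : (Pt.a : Pt.{u}) ≤ Pt.t := trivial
theorem le_t_b : (Pt.b : Pt.{u}) ≤ Pt.t := trivial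

theorem le_emb {x : Pt.{u}} {d : D.{u}} (h : x ≤ emb d) : x = emb d := by
  cases x <;> cases d <;> first | rfl | exact h.elim

theorem emb_le {d : D.{u}} {y : Pt.{u}} (h : emb d ≤ y) :
    y = emb d ∨ (y = Pt.t ∧ (d = D.a ∨ d = D.b)) := by
  cases y <;> cases d <;>
    first
      | exact Or.inl rfl
      | exact Or.inr ⟨rfl, Or.inl rfl⟩
      | exact Or.inr ⟨rfl, Or.inr rfl⟩
      | exact h.elim

theorem emb_inj {d e : D.{u}} (h : emb d = emb e) : d = e := by
  cases d <;> cases e <;> first | rfl | cases h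

theorem emb_ne_t {d : D.{u}} : emb d ≠ Pt.t := by
  cases d <;> intro h <;> cases h

theorem exists_emb {x : Pt.{u}} (h : x ≠ Pt.t) : ∃ d, x = emb d := by
  cases x
  · exact ⟨.a, rfl⟩
  · exact ⟨.b, rfl⟩
  · exact ⟨.c, rfl⟩
  · exact (h rfl).elim

/-- The extra condition cutting out the subalgebra. -/
def Good (R : Set (Pt.{u} × Pt.{u})) : Prop :=
  ∀ d : D.{u}, (emb d, Pt.t) ∈ R → (emb d, Pt.a) ∈ R ∨ (emb d, Pt.b) ∈ R

theorem good_relSeq {R S : Set (Pt.{u} × Pt.{u})} (hR : Good R)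
    (hS : Good S) (hSw : IsWeakening S) : Good (relSeq R S) := by
  rw [isWeakening_iff] at hSw
  rintro d ⟨y, h1, h2⟩
  have key : ∀ e : D.{u}, (emb d, emb e) ∈ R → (emb e, Pt.t) ∈ S →
      (emb d, Pt.a) ∈ relSeq R S ∨ (emb d, Pt.b) ∈ relSeq R S := by
    intro e he hS'
    rcases hS e hS' with h | h
    · exact Or.inl ⟨_, he, h⟩
    · exact Or.inr ⟨_, he, h⟩
  by_cases hy : y = Pt.t
  · subst hy
    rcases hR d h1 with h | h
    · exact key D.a h (hSw _ _ _ _ le_t_a h2 le_rfl)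
    · exact key D.b h (hSw _ _ _ _ le_t_b h2 le_rfl)
  · obtain ⟨e, rfl⟩ := exists_emb hy
    exact key e h1 h2

theorem good_relImp {R S : Set (Pt.{u} × Pt.{u})} (hR : IsWeakening R) (hS : Good S) :
    Good (relImp R S) := by
  rw [isWeakening_iff] at hR
  intro d h
  by_contra hcon
  rw [not_or] at hcon
  obtain ⟨ha, hb⟩ := hcon
  have aux : ∀ e : D.{u}, (e = D.a ∨ e = D.b) → (emb d, emb e) ∉ relImp R S →
      (emb d, emb e) ∈ R ∧ (emb d, emb e) ∉ S := by
    intro e _ hne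
    by_contra hc
    apply hne
    intro x' y' hx hy hxy
    obtain rfl := le_emb hx
    rcases emb_le hy with rfl | ⟨rfl, _⟩
    · by_contra hc2
      exact hc ⟨hxy, hc2⟩
    · exact h _ _ le_rfl le_rfl hxy
  obtain ⟨ha1, ha2⟩ := aux D.a (Or.inl rfl) ha
  obtain ⟨_, hb2⟩ := aux D.b (Or.inr rfl) hb
  have hRt : (emb d, Pt.t) ∈ R := hR _ _ _ _ le_rfl ha1 le_t_a
  have hSt : (emb d, Pt.t) ∈ S := h _ _ le_rfl le_rfl hRt
  rcases hS d hSt with h1 | h1
  · exact ha2 h1
  · exact hb2 h1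

/-- The subalgebra of `W(P)`. -/
def subAlg : Alg.{u} where
  carrier := {R : Set (Pt.{u} × Pt.{u}) // IsWeakening R ∧ Good R}
  imp := fun R S => ⟨relImp R.1 S.1, isWeakening_relImp _ _, good_relImp R.2.1 S.2.2⟩
  seq := fun R S => ⟨relSeq R.1 S.1, isWeakening_relSeq R.2.1 S.2.1,
    good_relSeq R.2.2 S.2.2 S.2.1⟩

theorem subAlg_inK : InK.{u, u, u} subAlg.{u} := by
  refine ⟨PUnit, fun _ => Pt.{u}, fun _ => inferInstance, fun R _ => ⟨R.1, R.2.1⟩, ⟨?_, ?_⟩, ?_⟩
  · intro R S; rfl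
  · intro R S; rfl
  · intro R S h
    have := congrFun h PUnit.unit
    exact Subtype.ext (Subtype.mk.injEq _ _ _ _ ▸ this)

/-- The implication of the homomorphic image. -/
def imgImp (q q' : Set (D.{u} × D.{u})) : Set (D.{u} × D.{u}) :=
  {p | (p ∈ q → p ∈ q') ∧ ((p.2 = D.a ∨ p.2 = D.b) →
    ((p.1, D.a) ∈ q ∨ (p.1, D.b) ∈ q) → ((p.1, D.a) ∈ q' ∨ (p.1, D.b) ∈ q'))}

/-- The homomorphic image: all binary relations on `{a, b, c}`, with ordinary composition and
a modified implication. -/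
def imageAlg : Alg.{u} where
  carrier := Set (D.{u} × D.{u})
  imp := imgImp
  seq := relSeq

/-- The restriction map. -/
def restr (R : subAlg.{u}.carrier) : Set (D.{u} × D.{u}) :=
  {p : D.{u} × D.{u} | (emb p.1, emb p.2) ∈ R.1}

theorem mem_t_iff (R : subAlg.{u}.carrier) (d : D.{u}) :
    (emb d, Pt.t) ∈ R.1 ↔ ((d, D.a) ∈ restr R ∨ (d, D.b) ∈ restr R) := by
  constructor
  · exact fun h => R.2.2 d h
  · have hw := (isWeakening_iff R.1).1 R.2.1
    rintro (h | h)
    · exact hw _ _ _ _ le_rfl h le_t_a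
    · exact hw _ _ _ _ le_rfl h le_t_b

theorem restr_isHom : IsHom subAlg.{u} imageAlg.{u} restr := by
  constructor
  · intro R S
    apply Set.ext
    rintro ⟨d, e⟩
    constructor
    · intro h
      refine ⟨fun h1 => h _ _ le_rfl le_rfl h1, ?_⟩
      intro he h1
      have hle : emb e ≤ Pt.t := by
        rcases he with he | he
        · have : e = D.a := he
          subst this; exact le_t_a
        · have : e = D.b := he
          subst this; exact le_t_b
      exact (mem_t_iff S d).1 (h _ _ le_rfl hle ((mem_t_iff R d).2 h1))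
    · rintro ⟨h1, h2⟩ x' y' hx hy hxy
      obtain rfl := le_emb hx
      rcases emb_le hy with rfl | ⟨rfl, he⟩
      · exact h1 hxy
      · exact (mem_t_iff S d).2 (h2 he ((mem_t_iff R d).1 hxy))
  · intro R S
    apply Set.ext
    rintro ⟨d, e⟩
    constructor
    · rintro ⟨y, h1, h2⟩
      by_cases hy : y = Pt.t
      · subst hy
        have hw := (isWeakening_iff S.1).1 S.2.1
        rcases R.2.2 d h1 with h | h
        · exact ⟨D.a, h, hw _ _ _ _ le_t_a h2 le_rfl⟩
        · exact ⟨D.b, h, hw _ _ _ _ le_t_b h2 le_rfl⟩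
      · obtain ⟨z, rfl⟩ := exists_emb hy
        exact ⟨z, h1, h2⟩
    · rintro ⟨z, h1, h2⟩
      exact ⟨emb z, h1, h2⟩

theorem restr_surjective : Function.Surjective restr.{u} := by
  intro q
  refine ⟨⟨{p | ∃ d, p.1 = emb d ∧ ((∃ e, p.2 = emb e ∧ (d, e) ∈ q) ∨
    (p.2 = Pt.t ∧ ((d, D.a) ∈ q ∨ (d, D.b) ∈ q)))}, ?_, ?_⟩, ?_⟩
  · rw [isWeakening_iff]
    rintro x' x y y' hx ⟨d, rfl, h⟩ hy
    obtain rfl := le_emb hx
    refine ⟨d, rfl, ?_⟩
    rcases h with ⟨e, rfl, he⟩ | ⟨rfl, h⟩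
    · rcases emb_le hy with rfl | ⟨rfl, he'⟩
      · exact Or.inl ⟨e, rfl, he⟩
      · refine Or.inr ⟨rfl, ?_⟩
        rcases he' with rfl | rfl
        · exact Or.inl he
        · exact Or.inr he
    · have : y' = Pt.t := by
        cases y' <;> first | rfl | exact hy.elim
      exact Or.inr ⟨this, h⟩
  · rintro d ⟨d', hd, h⟩
    obtain rfl := emb_inj hd
    rcases h with ⟨e, he, _⟩ | ⟨_, h⟩
    · exact (emb_ne_t he.symm).elim
    · rcases h with h | h
      · exact Or.inl ⟨d, rfl, Or.inl ⟨D.a, rfl, h⟩⟩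
      · exact Or.inr ⟨d, rfl, Or.inl ⟨D.b, rfl, h⟩⟩
  · apply Set.ext
    rintro ⟨d, e⟩
    constructor
    · rintro ⟨d', hd, h⟩
      obtain rfl := emb_inj hd
      rcases h with ⟨e', he, h⟩ | ⟨h, _⟩
      · obtain rfl := emb_inj he
        exact h
      · exact (emb_ne_t h).elim
    · intro h
      exact ⟨d, rfl, Or.inl ⟨e, rfl, h⟩⟩

theorem imgImp_self (q : Set (D.{u} × D.{u})) : imgImp q q = Set.univ := by
  ext p
  exact ⟨fun _ => trivial, fun _ => ⟨fun h => h, fun _ h => h⟩⟩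

theorem not_qi_imageAlg : ¬ QI imageAlg.{u} := by
  intro h
  -- `s = {(a,c), (b,a), (c,c)}`, `r₁ = {(a,a)}`, `r₂ = {(a,b)}`, `p = ∅`
  let s : Set (D.{u} × D.{u}) := {(D.a, D.c), (D.b, D.a), (D.c, D.c)}
  let r₁ : Set (D.{u} × D.{u}) := {(D.a, D.a)}
  let r₂ : Set (D.{u} × D.{u}) := {(D.a, D.b)}
  let p : Set (D.{u} × D.{u}) := ∅
  have h1 : relSeq s (imgImp s s) = imgImp s s := by
    rw [imgImp_self]
    ext ⟨x, y⟩
    refine ⟨fun _ => trivial, fun _ => ?_⟩
    cases x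
    · exact ⟨D.c, Or.inl rfl, trivial⟩
    · exact ⟨D.a, Or.inr (Or.inl rfl), trivial⟩
    · exact ⟨D.c, Or.inr (Or.inr rfl), trivial⟩
  have m1 : ∀ x y, (x, y) ∈ relSeq r₁ s → x = D.a ∧ y = D.c := by
    rintro x y ⟨z, hz1, hz2⟩
    have hz1' : (x, z) = (D.a, D.a) := hz1
    obtain ⟨rfl, rfl⟩ := Prod.mk.inj hz1'
    rcases hz2 with hz2 | hz2 | hz2
    · exact ⟨rfl, (Prod.mk.inj hz2).2⟩
    · cases (Prod.mk.inj hz2).1
    · cases (Prod.mk.inj hz2).1
  have m2 : ∀ x y, (x, y) ∈ relSeq r₂ s → x = D.a ∧ y = D.a := by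
    rintro x y ⟨z, hz1, hz2⟩
    have hz1' : (x, z) = (D.a, D.b) := hz1
    obtain ⟨rfl, rfl⟩ := Prod.mk.inj hz1'
    rcases hz2 with hz2 | hz2 | hz2
    · cases (Prod.mk.inj hz2).1
    · exact ⟨rfl, (Prod.mk.inj hz2).2⟩
    · cases (Prod.mk.inj hz2).1
  have h2 : imgImp (relSeq r₁ s) (imgImp (relSeq r₂ s) p) = imgImp s s := by
    rw [imgImp_self]
    ext ⟨x, y⟩
    refine ⟨fun _ => trivial, fun _ => ⟨?_, ?_⟩⟩
    · intro hxy
      obtain ⟨rfl, rfl⟩ := m1 _ _ hxy
      refine ⟨fun h3 => ?_, fun h3 => ?_⟩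
      · cases (m2 _ _ h3).2
      · rcases h3 with h3 | h3 <;> cases h3
    · intro _ h3
      rcases h3 with h3 | h3
      · cases (m1 _ _ h3).2
      · cases (m1 _ _ h3).2
  have h3 : imgImp r₁ (imgImp r₂ (relSeq p (imgImp s s))) = imgImp s s := h s r₁ r₂ p h1 h2
  rw [imgImp_self] at h3
  have h4 : ((D.a, D.a) : D.{u} × D.{u}) ∈ imgImp r₁ (imgImp r₂ (relSeq p Set.univ)) := by
    rw [h3]; trivial
  have h5 : ((D.a, D.a) : D.{u} × D.{u}) ∈ imgImp r₂ (relSeq p Set.univ) := h4.1 rfl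
  have h6 := h5.2 (Or.inl rfl) (Or.inr rfl)
  rcases h6 with ⟨y, hy, _⟩ | ⟨y, hy, _⟩
  · exact hy
  · exact hy

/-- **The class `K` of representable weakening implication semigroups is not a variety**: some
homomorphic image of a member of `K` lies outside `K`. -/
theorem result : ∃ A B : Alg.{u}, InK.{u, u, u} A ∧
    (∃ f : A.carrier → B.carrier, IsHom A B f ∧ Function.Surjective f) ∧
    ¬ InK.{u, v, w} B :=
  ⟨subAlg, imageAlg, subAlg_inK, ⟨restr, restr_isHom, restr_surjective⟩,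
    fun h => not_qi_imageAlg (qi_of_inK _ h)⟩

end Pool.Agent.Results.MP_d80673_al.NotVariety
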